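import Mathlib

/-!
# Iwasawa's `μ`-invariants of number fields: definitions
-/

set_option autoImplicit false

namespace Pool.Agent.Y156.W

open IntermediateField

variable {k Ω : Type} [Field k] [Field Ω] [Algebra k Ω]

/-- `K` is a finite extension of `k` that contains `M`, and the degree of `K` over `M` is not divisible by
`p`. -/
def PrimeTo (p : ℕ) (M K : IntermediateField k Ω) : Prop :=
  FiniteDimensional k K ∧ M ≤ K ∧
    ∃ r : ℕ, Module.finrank k K = r * Module.finrank k M ∧ ¬ p ∣ r

/-- A class of finite extensions of `k` that is closed under subfields and contains the normal closure
over `k` of the composite of two of its members; for `k = ℚ`, for instance the class of all number fields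
and the class of all totally real number fields. -/
structure IsClass (C : IntermediateField k Ω → Prop) : Prop where
  sub : ∀ F L : IntermediateField k Ω, F ≤ L → C L → C F
  closure : ∀ F M : IntermediateField k Ω, C F → C M →
    C (normalClosure k (F ⊔ M : IntermediateField k Ω) Ω)

/-- The known properties of the vanishing `mu0 F` of the `μ`-invariant of the number fields `F` in the class
`C` (for a prime number `p` and the cyclotomic `ℤ_p`-extension). `descent`: it holds for subfields. `ascent`
(Iwasawa 1973): for `L` Galois over `k` and a `p`-group `P` of automorphisms of `L`, it holds for `L` if it
holds for the fixed field of `P` and if this fixed field has the property `A`. The property `A` is no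
condition if `p` is odd; for `p = 2` it means totally complex. -/
structure IsMu (p : ℕ) (C A mu0 : IntermediateField k Ω → Prop) : Prop where
  descent : ∀ F L : IntermediateField k Ω, FiniteDimensional k L → C L → F ≤ L → mu0 L → mu0 F
  ascent : ∀ L : IntermediateField k Ω, FiniteDimensional k L → C L → IsGalois k L →
    ∀ P : Subgroup (L ≃ₐ[k] L), IsPGroup p P → A (lift (fixedField P)) →
      mu0 (lift (fixedField P)) → mu0 L
  up : ∀ K L : IntermediateField k Ω, K ≤ L → A K → A L

/-- Data `d : D` (a number field `K`, an abelian extension `L` of `K`, a `p`-adic representation `T`, sets
of places `S` and `Σ`), the statement `good d` that the second `Σ`-modified Iwasawa cohomology group is a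
torsion module with `μ = 0`, the finite extension `resField d` of `ℚ`, the extension of `L` that trivializes
the reduction of `T` modulo the uniformizer, and the datum `triv F = (F, F, ℤ_p(1), S, ∅)`. Known:
`good d` holds if the `μ`-invariant of `resField d` vanishes (Coates and Sujatha, Lim), and `good (triv F)`
holds if and only if the `μ`-invariant of `F` vanishes. -/
structure IsLim {D : Type} (mu0 : IntermediateField k Ω → Prop) (good : D → Prop)
    (resField : D → IntermediateField k Ω) (triv : IntermediateField k Ω → D) : Prop where
  finite : ∀ d, FiniteDimensional k (resField d)
  of_mu : ∀ d, mu0 (resField d) → good d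
  triv_iff : ∀ F : IntermediateField k Ω, FiniteDimensional k F → (good (triv F) ↔ mu0 F)

end Pool.Agent.Y156.W
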