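import Mathlib
import Pool.Agent.Y156.W.Defs

/-!
# Fine Selmer groups of elliptic curves and of `p`-adic representations: definitions
-/

set_option autoImplicit false

namespace Pool.Agent.Y156.W

open IntermediateField

variable {k Ω : Type} [Field k] [Field Ω] [Algebra k Ω]

/-- Data for an odd prime number `p`. The elements `E : El` are elliptic curves (or `p`-adic
representations with a stable lattice) over the number fields `base E`; the number field `div E` is
obtained from `base E` by adjoining the coordinates of the points of order `p` (or the field cut out by
the residual representation and the roots of unity of order `p`). For a number field `K` that contains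
`base E`, the statement `fine E K` is that the dual of the fine Selmer group of `E` over the cyclotomic
`ℤ_p`-extension of `K` is finitely generated over `ℤ_p` (equivalently: it is a torsion module with
`μ = 0`; equivalently: `A(K, E[p])`). The statement `triv K` is `A(K, 𝔽_p)`, that is
`H^2(G_S(K_cyc), 𝔽_p) = 0`. The statement `unip E K` is that `K` contains `base E` and the roots of unity of
order `p`, and that the Galois group of `K` acts on `E[p]` (or on the residual representation) through a
`p`-group; for an elliptic curve, and a field with the roots of unity of order `p`, this means that `E` has
a point of order `p` over `K`. -/
structure FineData (k Ω : Type) [Field k] [Field Ω] [Algebra k Ω] where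
  /-- the elliptic curves or the representations -/
  El : Type
  /-- the field of definition -/
  base : El → IntermediateField k Ω
  /-- the field of the points of order `p` -/
  div : El → IntermediateField k Ω
  /-- finite generation of the dual fine Selmer group over a number field that contains `base E` -/
  fine : El → IntermediateField k Ω → Prop
  /-- the statement for the trivial module `𝔽_p` -/
  triv : IntermediateField k Ω → Prop
  /-- the Galois group acts on the points of order `p` and on the roots of unity through a `p`-group -/
  unip : El → IntermediateField k Ω → Prop

/-- The known properties for odd `p` (Iwasawa; Greenberg; Coates and Sujatha; Lim). `fine_descent`: descent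
to subfields. `descent` and `ascent`: for `𝔽_p`, descent to subfields, and ascent from the fixed field of a
`p`-group of automorphisms. `equiv`: the equivalence of the statements for `E[p]` and `𝔽_p` in the
unipotent case. `unip_div`: a field that contains `div E` is a unipotent case. `unip_group`: so is the fixed
field of a `p`-group of automorphisms of a Galois extension of `k` that contains `div E`. -/
structure IsFine (p : ℕ) (T : FineData k Ω) : Prop where
  div_finite : ∀ E, FiniteDimensional k (T.div E)
  fine_descent : ∀ E (F L : IntermediateField k Ω), FiniteDimensional k L → T.base E ≤ F → F ≤ L →
    T.fine E L → T.fine E F
  descent : ∀ F L : IntermediateField k Ω, FiniteDimensional k L → F ≤ L → T.triv L → T.triv F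
  ascent : ∀ L : IntermediateField k Ω, FiniteDimensional k L → IsGalois k L →
    ∀ P : Subgroup (L ≃ₐ[k] L), IsPGroup p P → T.triv (lift (fixedField P)) → T.triv L
  equiv : ∀ E (K : IntermediateField k Ω), FiniteDimensional k K → T.unip E K →
    (T.fine E K ↔ T.triv K)
  unip_div : ∀ E (L : IntermediateField k Ω), FiniteDimensional k L → T.div E ≤ L → T.unip E L
  unip_group : ∀ E (L : IntermediateField k Ω), FiniteDimensional k L → IsGalois k L → T.div E ≤ L →
    ∀ P : Subgroup (L ≃ₐ[k] L), IsPGroup p P → T.base E ≤ lift (fixedField P) →
      T.unip E (lift (fixedField P))

/-- The additional data and properties for the `μ`-invariants of representations: `mu E K` is the vanishing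
of the `μ`-invariant of the dual fine Selmer group of `E` over the cyclotomic `ℤ_p`-extension of `K` (a
finitely generated module that is perhaps not a torsion module), and `one` is the trivial representation
over `k`, for which it is a torsion module (Iwasawa), so that `mu` and `fine` are equivalent. -/
structure IsMuFine (T : FineData k Ω) (mu : T.El → IntermediateField k Ω → Prop) (one : T.El) :
    Prop where
  of_fine : ∀ E (K : IntermediateField k Ω), FiniteDimensional k K → T.base E ≤ K → T.fine E K →
    mu E K
  base_one : T.base one = ⊥
  one_iff : ∀ K : IntermediateField k Ω, FiniteDimensional k K → (mu one K ↔ T.fine one K)

/-- Finite generation for all number fields and all elliptic curves (or representations) over them. -/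
def AllFine (T : FineData k Ω) : Prop :=
  ∀ E (K : IntermediateField k Ω), FiniteDimensional k K → T.base E ≤ K → T.fine E K

end Pool.Agent.Y156.W
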