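import Mathlib
import Pool.Agent.Y156.W.Defs

/-!
# Reduction of the vanishing of `μ`-invariants to number fields of degree prime to `p`
-/

set_option autoImplicit false

namespace Pool.Agent.Y156.W

open IntermediateField

variable {k Ω : Type} [Field k] [Field Ω] [Algebra k Ω] [CharZero k] [IsAlgClosure k Ω]

omit [CharZero k] [IsAlgClosure k Ω] in
theorem finrank_lift {L : IntermediateField k Ω} (E : IntermediateField k L) :
    Module.finrank k (lift E) = Module.finrank k E :=
  (liftAlgEquiv E).toLinearEquiv.finrank_eq.symm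

/-- A Galois extension `L` that contains `F` and a subgroup `P` of `p`-power order, such that the fixed
field contains `M` and is of a degree over `M` that is prime to `p`. -/
theorem exists_field {p : ℕ} [Fact p.Prime] (F M : IntermediateField k Ω) (hF : FiniteDimensional k F)
    (hM : FiniteDimensional k M) : ∃ (L : IntermediateField k Ω) (_ : FiniteDimensional k L)
      (_ : IsGalois k L) (P : Subgroup (L ≃ₐ[k] L)),
      L = normalClosure k (F ⊔ M : IntermediateField k Ω) Ω ∧ F ≤ L ∧
      IsPGroup p P ∧ PrimeTo p M (lift (fixedField P)) := by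
  have hna : Normal k Ω := IsAlgClosure.normal k Ω
  have hFM : FiniteDimensional k (F ⊔ M : IntermediateField k Ω) := inferInstance
  have hL : FiniteDimensional k (normalClosure k (F ⊔ M : IntermediateField k Ω) Ω) := inferInstance
  have hnorm : Normal k (normalClosure k (F ⊔ M : IntermediateField k Ω) Ω) := inferInstance
  have hle : F ⊔ M ≤ normalClosure k (F ⊔ M : IntermediateField k Ω) Ω := le_normalClosure _
  obtain ⟨L, hLeq⟩ : ∃ L : IntermediateField k Ω,
    L = normalClosure k (F ⊔ M : IntermediateField k Ω) Ω := ⟨_, rfl⟩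
  rw [← hLeq] at hL hnorm hle
  have hgal : IsGalois k L := { }
  have hML : M ≤ L := le_sup_right.trans hle
  have hfinG : Finite (L ≃ₐ[k] L) := inferInstance
  obtain ⟨M', hM'⟩ : ∃ M' : IntermediateField k L, lift M' = M := ⟨restrict hML, lift_restrict hML⟩
  have P : Sylow p M'.fixingSubgroup := default
  have hP'H : P.1.map M'.fixingSubgroup.subtype ≤ M'.fixingSubgroup := Subgroup.map_subtype_le _
  have h1 : M' ≤ fixedField (P.1.map M'.fixingSubgroup.subtype) := by
    have h2 : fixedField M'.fixingSubgroup ≤ fixedField (P.1.map M'.fixingSubgroup.subtype) :=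
      fixedField_le hP'H
    rwa [IsGalois.fixedField_fixingSubgroup] at h2
  have hlift : M ≤ lift (fixedField (P.1.map M'.fixingSubgroup.subtype)) := by
    rw [← hM']
    exact IntermediateField.map_mono _ h1
  have hindex : Module.finrank k (fixedField (P.1.map M'.fixingSubgroup.subtype)) =
      P.1.index * Module.finrank k M' := by
    rw [finrank_eq_fixingSubgroup_index, finrank_eq_fixingSubgroup_index,
      fixingSubgroup_fixedField, ← Subgroup.relIndex_mul_index hP'H]
    congr 1
    rw [Subgroup.relIndex, Subgroup.subgroupOf, Subgroup.comap_map_eq_self_of_injective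
      M'.fixingSubgroup.subtype_injective]
  refine ⟨L, hL, hgal, P.1.map M'.fixingSubgroup.subtype, hLeq, le_sup_left.trans hle,
    P.2.map _, ?_, hlift, P.1.index, ?_, ?_⟩
  · have h3 : FiniteDimensional k (fixedField (P.1.map M'.fixingSubgroup.subtype)) := inferInstance
    exact LinearEquiv.finiteDimensional
      (liftAlgEquiv (fixedField (P.1.map M'.fixingSubgroup.subtype))).toLinearEquiv
  · rw [finrank_lift, hindex, ← finrank_lift M', hM']
  · exact P.not_dvd_index

/-- The reduction to the extensions of `M` of degree prime to `p`. -/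
theorem reduction {p : ℕ} (hp : p.Prime) {C A mu0 : IntermediateField k Ω → Prop}
    (hC : IsClass C) (hmu : IsMu p C A mu0) {M : IntermediateField k Ω} (hM : FiniteDimensional k M)
    (hCM : C M) (hAM : A M) :
    (∀ F : IntermediateField k Ω, FiniteDimensional k F → C F → mu0 F) ↔
      ∀ K : IntermediateField k Ω, PrimeTo p M K → C K → mu0 K := by
  have : Fact p.Prime := ⟨hp⟩
  refine ⟨fun h K hK hCK => h K hK.1 hCK, fun h F hF hCF => ?_⟩
  obtain ⟨L, hL, hgal, P, hLeq, hFL, hP, hprime⟩ := exists_field (p := p) F M hF hM
  have hCL : C L := hLeq ▸ hC.closure F M hCF hCM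
  exact hmu.descent F L hL hCL hFL (hmu.ascent L hL hCL hgal P hP (hmu.up M _ hprime.2.1 hAM)
    (h _ hprime (hC.sub _ L (lift_le _) hCL)))

omit [CharZero k] [IsAlgClosure k Ω] in
theorem isClass_true : IsClass (k := k) (Ω := Ω) fun _ => True :=
  ⟨fun _ _ _ _ => trivial, fun _ _ _ _ => trivial⟩

/-- The same for all number fields. -/
theorem reduction_all {p : ℕ} (hp : p.Prime) {A mu0 : IntermediateField k Ω → Prop}
    (hmu : IsMu p (fun _ => True) A mu0) {M : IntermediateField k Ω} (hM : FiniteDimensional k M)
    (hAM : A M) :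
    (∀ F : IntermediateField k Ω, FiniteDimensional k F → mu0 F) ↔
      ∀ K : IntermediateField k Ω, PrimeTo p M K → mu0 K := by
  have h := reduction hp isClass_true hmu hM trivial hAM
  exact ⟨fun h1 K hK => h.1 (fun F hF _ => h1 F hF) K hK trivial,
    fun h1 F hF => h.2 (fun K hK _ => h1 K hK) F hF trivial⟩

end Pool.Agent.Y156.W
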