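import Mathlib
import Pool.Agent.Y156.W.CurveDefs
import Pool.Agent.Y156.W.Main

/-!
# Fine Selmer groups: reduction to one elliptic curve or representation and to degrees prime to `p`
-/

set_option autoImplicit false

namespace Pool.Agent.Y156.W

open IntermediateField

variable {k Ω : Type} [Field k] [Field Ω] [Algebra k Ω] [CharZero k] [IsAlgClosure k Ω]

/-- The reduction to one elliptic curve or representation over the extensions of `M` of degree prime to
`p`. -/
theorem one_curve {p : ℕ} (hp : p.Prime) {T : FineData k Ω} (hT : IsFine p T)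
    {M : IntermediateField k Ω} (hM : FiniteDimensional k M) (E₀ : T.El) (hE : T.base E₀ ≤ M) :
    AllFine T ↔ ∀ K : IntermediateField k Ω, PrimeTo p M K → T.fine E₀ K := by
  have : Fact p.Prime := ⟨hp⟩
  refine ⟨fun h K hK => h E₀ K hK.1 (hE.trans hK.2.1), fun h E K hK hEK => ?_⟩
  have h1 := hT.div_finite E
  have h2 := hT.div_finite E₀
  obtain ⟨L, hL, hgal, P, -, hFL, hP, hprime⟩ :=
    exists_field (p := p) (K ⊔ T.div E ⊔ T.div E₀) M inferInstance hM
  have hK' : K ≤ L := (le_sup_left.trans le_sup_left).trans hFL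
  have hdiv : T.div E ≤ L := (le_sup_right.trans le_sup_left).trans hFL
  have hdiv₀ : T.div E₀ ≤ L := le_sup_right.trans hFL
  have h3 : T.triv (lift (fixedField P)) :=
    (hT.equiv E₀ _ hprime.1 (hT.unip_group E₀ L hL hgal hdiv₀ P hP (hE.trans hprime.2.1))).1
      (h _ hprime)
  exact hT.fine_descent E K L hL hEK hK'
    ((hT.equiv E L hL (hT.unip_div E L hL hdiv)).2 (hT.ascent L hL hgal P hP h3))

/-- The version for the `μ`-invariants of representations. -/
theorem one_rep {p : ℕ} (hp : p.Prime) {T : FineData k Ω} (hT : IsFine p T)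
    {mu : T.El → IntermediateField k Ω → Prop} {one : T.El} (hmu : IsMuFine T mu one)
    {M : IntermediateField k Ω} (hM : FiniteDimensional k M) (E₀ : T.El) (hE : T.base E₀ ≤ M) :
    (∀ E (K : IntermediateField k Ω), FiniteDimensional k K → T.base E ≤ K → mu E K) ↔
      ∀ K : IntermediateField k Ω, PrimeTo p M K → T.fine E₀ K := by
  rw [← one_curve hp hT hM E₀ hE]
  refine ⟨fun h => ?_, fun h E K hK hEK => hmu.of_fine E K hK hEK (h E K hK hEK)⟩
  refine (one_curve hp hT hM one (hmu.base_one.trans_le bot_le)).2 fun K hK => ?_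
  exact (hmu.one_iff K hK.1).1 (h one K hK.1 (hmu.base_one.trans_le bot_le))

end Pool.Agent.Y156.W
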